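import Pool.Agent.W785.FD.Stms

/-! Fubini for averages (task FD-FA, helper193). -/

set_option autoImplicit false

open MeasureTheory Metric Set Filter
open scoped ENNReal NNReal Topology

namespace Pool.Agent.W193.FD.FA

open Pool.Agent.W785.FD

theorem main {X : Type*} [MetricSpace X] [ProperSpace X] [MeasurableSpace X] [BorelSpace X]
    (μ : Measure X) (D : ℝ) (hD : Dbl μ D) : S_FA μ D := by
  intro f hf x R s hs
  have : IsLocallyFiniteMeasure μ := ⟨fun x => ⟨ball x 1, ball_mem_nhds x one_pos, hD.fin x 1⟩⟩
  obtain ⟨S, hS⟩ : ∃ S : Set (X × X), S = {p | dist p.2 p.1 < s} := ⟨_, rfl⟩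
  have hSm : MeasurableSet S := by
    rw [hS]
    exact measurableSet_lt (measurable_snd.dist measurable_fst) measurable_const
  have hball : ∀ y : X, Prod.mk y ⁻¹' S = ball y s := by
    intro y
    ext w
    rw [hS, mem_preimage, mem_ofPred_eq, mem_ball]
  have hμm : Measurable fun y => μ (ball y s) := by
    have h := measurable_measure_prodMk_left (ν := μ) hSm
    simp only [hball] at h
    exact h
  obtain ⟨g, hg⟩ : ∃ g : X → ℝ≥0∞, g = fun y => f y * (ENNReal.ofReal D * (μ (ball y s))⁻¹) :=
    ⟨_, rfl⟩
  have hgm : Measurable g := by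
    rw [hg]
    exact hf.mul (measurable_const.mul hμm.inv)
  have hle : ∀ z, lav μ f z s ≤ ∫⁻ y, S.indicator (fun p => g p.2) (z, y) ∂μ := by
    intro z
    unfold lav
    rw [div_eq_mul_inv, ← lintegral_mul_const _ hf, ← lintegral_indicator measurableSet_ball]
    refine lintegral_mono fun y => ?_
    by_cases hy : y ∈ ball z s
    · have hy' : (z, y) ∈ S := by
        rw [hS]
        exact hy
      rw [indicator_of_mem hy, indicator_of_mem hy', hg]
      refine mul_le_mul' le_rfl ?_
      have hz0 := (hD.pos z s hs).ne'
      have hz1 := (hD.fin z s).ne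
      have hy0 := (hD.pos y s hs).ne'
      have hy1 := (hD.fin y s).ne
      rw [← div_eq_mul_inv, ENNReal.le_div_iff_mul_le (Or.inl hy0) (Or.inl hy1)]
      have h1 : μ (ball y s) ≤ ENNReal.ofReal D * μ (ball z s) := by
        refine (measure_mono fun w hw => ?_).trans (hD.dbl z s hs)
        rw [mem_ball] at hy hw ⊢
        calc dist w z ≤ dist w y + dist y z := dist_triangle _ _ _
          _ < 2 * s := by linarith
      calc (μ (ball z s))⁻¹ * μ (ball y s)
          ≤ (μ (ball z s))⁻¹ * (ENNReal.ofReal D * μ (ball z s)) := mul_le_mul' le_rfl h1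
        _ = ENNReal.ofReal D * ((μ (ball z s))⁻¹ * μ (ball z s)) := by ring
        _ = ENNReal.ofReal D := by rw [ENNReal.inv_mul_cancel hz0 hz1, mul_one]
    · rw [indicator_of_notMem hy]
      exact zero_le
  have hsw : ∫⁻ z in ball x R, ∫⁻ y, S.indicator (fun p => g p.2) (z, y) ∂μ ∂μ =
      ∫⁻ y, ∫⁻ z in ball x R, S.indicator (fun p => g p.2) (z, y) ∂μ ∂μ := by
    refine lintegral_lintegral_swap ?_
    exact ((hgm.comp measurable_snd).indicator hSm).aemeasurable
  calc ∫⁻ z in ball x R, lav μ f z s ∂μ
      ≤ ∫⁻ z in ball x R, ∫⁻ y, S.indicator (fun p => g p.2) (z, y) ∂μ ∂μ :=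
        lintegral_mono fun z => hle z
    _ = ∫⁻ y, ∫⁻ z in ball x R, S.indicator (fun p => g p.2) (z, y) ∂μ ∂μ := hsw
    _ ≤ ∫⁻ y, (ball x (R + s)).indicator (fun y => ENNReal.ofReal D * f y) y ∂μ := by
        refine lintegral_mono fun y => ?_
        have e : ∀ z, S.indicator (fun p => g p.2) (z, y) = (ball y s).indicator (fun _ => g y) z := by
          intro z
          by_cases h : z ∈ ball y s
          · have h' : (z, y) ∈ S := by
              rw [hS, mem_ofPred_eq, dist_comm]
              exact h
            rw [indicator_of_mem h, indicator_of_mem h']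
          · have h' : (z, y) ∉ S := by
              rw [hS, mem_ofPred_eq, dist_comm]
              exact h
            rw [indicator_of_notMem h, indicator_of_notMem h']
        simp only [e]
        rw [lintegral_indicator measurableSet_ball, lintegral_const,
          Measure.restrict_apply MeasurableSet.univ, univ_inter,
          Measure.restrict_apply measurableSet_ball]
        by_cases hy : y ∈ ball x (R + s)
        · rw [indicator_of_mem hy, hg]
          have h1 : μ (ball y s ∩ ball x R) ≤ μ (ball y s) := measure_mono inter_subset_left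
          calc f y * (ENNReal.ofReal D * (μ (ball y s))⁻¹) * μ (ball y s ∩ ball x R)
              ≤ f y * (ENNReal.ofReal D * (μ (ball y s))⁻¹) * μ (ball y s) := mul_le_mul' le_rfl h1
            _ = ENNReal.ofReal D * f y * ((μ (ball y s))⁻¹ * μ (ball y s)) := by ring
            _ = ENNReal.ofReal D * f y := by
                rw [ENNReal.inv_mul_cancel (hD.pos y s hs).ne' (hD.fin y s).ne, mul_one]
        · have h1 : ball y s ∩ ball x R = ∅ := by
            rw [eq_empty_iff_forall_notMem]
            rintro w ⟨h1, h2⟩
            apply hy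
            rw [mem_ball] at h1 h2 ⊢
            calc dist y x ≤ dist y w + dist w x := dist_triangle _ _ _
              _ < R + s := by rw [dist_comm y w]; linarith
          rw [h1, measure_empty, mul_zero]
          exact zero_le
    _ = ENNReal.ofReal D * ∫⁻ y in ball x (R + s), f y ∂μ := by
        rw [lintegral_indicator measurableSet_ball, lintegral_const_mul _ hf]

end Pool.Agent.W193.FD.FA
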